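import Pool.Agent.K1H54.GC.Stm

/-!
Piece DET: the recursion in the length of the window.
-/

set_option autoImplicit false

namespace Pool.Agent.K1H54.GC

open Finset

variable {q : ℕ} (χ : DirichletCharacter ℂ q)

lemma DD_succ (u j : ℕ) : DD χ u (j + 1) = DD χ u j + aa χ (u + j + 1) := by
  unfold DD
  rw [show u + (j + 1) = u + j + 1 by ring, ← Finset.insert_Ioc_right_eq_Ioc_add_one (by omega),
    Finset.sum_insert (by simp), add_comm]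

lemma nsq (a b : ℂ) : ‖a + b‖ ^ 2 = ‖a‖ ^ 2 + ‖b‖ ^ 2 + 2 * ((starRingEnd ℂ) b * a).re := by
  rw [← Complex.normSq_eq_norm_sq, ← Complex.normSq_eq_norm_sq, ← Complex.normSq_eq_norm_sq,
    Complex.normSq_add]
  congr 2
  rw [mul_comm]

lemma II_succ (U1 U2 j : ℕ) : II χ U1 U2 (j + 1) =
    II χ U1 U2 j + ∑ u ∈ Ico U1 U2, ‖aa χ (u + j + 1)‖ ^ 2 + 2 * (ZZ χ U1 U2 j).re := by
  unfold II ZZ
  rw [Complex.re_sum, Finset.mul_sum, ← Finset.sum_add_distrib, ← Finset.sum_add_distrib]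
  refine Finset.sum_congr rfl fun u _ => ?_
  rw [DD_succ, nsq]

lemma II_zero (U1 U2 : ℕ) : II χ U1 U2 0 = 0 := by
  unfold II DD
  simp

lemma ZZ_zero (U1 U2 : ℕ) : ZZ χ U1 U2 0 = 0 := by
  unfold ZZ DD
  simp

lemma II_eq (U1 U2 j : ℕ) : II χ U1 U2 j =
    ∑ i ∈ range j, ∑ u ∈ Ico U1 U2, ‖aa χ (u + i + 1)‖ ^ 2 + 2 * ∑ i ∈ range j, (ZZ χ U1 U2 i).re := by
  induction j with
  | zero => simp [II_zero]
  | succ j ih =>
    rw [II_succ, ih, Finset.sum_range_succ, Finset.sum_range_succ]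
    ring

theorem t_DET : S_DET := by
  intro q χ U1 U2 J L hL h j hj
  rw [II_eq]
  rw [add_sub_cancel_left, abs_mul, abs_two]
  gcongr
  rcases Nat.eq_zero_or_pos j with rfl | hj0
  · simp
  have h1 : ∑ i ∈ range j, (ZZ χ U1 U2 i).re = ∑ i ∈ Icc 1 (j - 1), (ZZ χ U1 U2 i).re := by
    have : range j = insert 0 (Icc 1 (j - 1)) := by
      ext i
      simp only [Finset.mem_range, Finset.mem_insert, Finset.mem_Icc]
      omega
    rw [this, Finset.sum_insert (by simp), ZZ_zero]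
    simp
  rw [h1]
  have h2 : |∑ i ∈ Icc 1 (j - 1), (ZZ χ U1 U2 i).re| ≤ ∑ i ∈ Icc 1 (j - 1), ‖ZZ χ U1 U2 i‖ :=
    (Finset.abs_sum_le_sum_abs _ _).trans (Finset.sum_le_sum fun i _ => Complex.abs_re_le_norm _)
  refine h2.trans ?_
  have h3 : (∑ i ∈ Icc 1 (j - 1), ‖ZZ χ U1 U2 i‖) ^ 2 ≤
      (∑ i ∈ Icc 1 (j - 1), (i : ℝ)) * ∑ i ∈ Icc 1 (j - 1), ‖ZZ χ U1 U2 i‖ ^ 2 / i := by
    have := Finset.sum_sq_le_sum_mul_sum_of_sq_le_mul (Icc 1 (j - 1))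
      (r := fun i : ℕ => ‖ZZ χ U1 U2 i‖) (f := fun i : ℕ => (i : ℝ))
      (g := fun i : ℕ => ‖ZZ χ U1 U2 i‖ ^ 2 / i) (fun i _ => Nat.cast_nonneg i)
      (fun i _ => by positivity) (fun i hi => ?_)
    · exact this
    · have : (1 : ℝ) ≤ i := by exact_mod_cast (Finset.mem_Icc.1 hi).1
      refine le_of_eq ?_
      field_simp
  have h4 : ∑ i ∈ Icc 1 (j - 1), (i : ℝ) ≤ (j : ℝ) ^ 2 := by
    calc ∑ i ∈ Icc 1 (j - 1), (i : ℝ) ≤ ∑ i ∈ Icc 1 (j - 1), (j : ℝ) := by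
          refine Finset.sum_le_sum fun i hi => ?_
          have := (Finset.mem_Icc.1 hi).2
          exact_mod_cast (by omega : i ≤ j)
      _ = ((j - 1 : ℕ) : ℝ) * j := by simp
      _ ≤ (j : ℝ) * j := by gcongr; omega
      _ = (j : ℝ) ^ 2 := by ring
  have h5 : ∑ i ∈ Icc 1 (j - 1), ‖ZZ χ U1 U2 i‖ ^ 2 / i ≤ L ^ 2 := by
    refine le_trans (Finset.sum_le_sum_of_subset_of_nonneg ?_ ?_) h
    · exact Finset.Icc_subset_Icc_right (by omega)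
    · intro i _ _
      positivity
  have h6 : (∑ i ∈ Icc 1 (j - 1), ‖ZZ χ U1 U2 i‖) ^ 2 ≤ (j * L) ^ 2 := by
    refine h3.trans ?_
    rw [mul_pow]
    exact mul_le_mul h4 h5 (Finset.sum_nonneg fun i _ => by positivity) (by positivity)
  exact abs_le_of_sq_le_sq' h6 (by positivity) |>.2

end Pool.Agent.K1H54.GC
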