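import Pool.Agent.K1H54.GC.Det

/-!
Assembly, part 1: the deterministic part.
-/

set_option autoImplicit false

namespace Pool.Agent.K1H54.GC

open Finset

/-- the weighted sum of the squares of the correlations -/
noncomputable def QQ {q : ℕ} (χ : DirichletCharacter ℂ q) (U1 U2 J : ℕ) : ℝ :=
  ∑ j ∈ Icc 1 J, ‖ZZ χ U1 U2 j‖ ^ 2 / j

lemma norm_aa {q : ℕ} [Fact q.Prime] (χ : DirichletCharacter ℂ q) {n : ℕ} (h0 : 0 < n) (hq : n < q) :
    ‖aa χ n‖ ^ 2 = if Squarefree n then 1 else 0 := by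
  have hu : IsUnit (n : ZMod q) := by
    rw [isUnit_iff_ne_zero, Ne, ZMod.natCast_eq_zero_iff]
    exact Nat.not_dvd_of_pos_of_lt h0 hq
  obtain ⟨v, hv⟩ := hu
  have h1 : ‖χ (n : ZMod q)‖ = 1 := by
    rw [← hv]; exact DirichletCharacter.unit_norm_eq_one χ v
  unfold aa
  rw [norm_mul, h1, mul_one]
  split_ifs with h
  · rw [show ‖(((ArithmeticFunction.moebius n : ℤ)) : ℂ)‖ = |((ArithmeticFunction.moebius n : ℤ) : ℝ)| by
      rw [← Complex.ofReal_intCast, Complex.norm_real, Real.norm_eq_abs]]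
    rw [sq_abs]
    have := ArithmeticFunction.moebius_sq_eq_one_of_squarefree h
    exact_mod_cast this
  · rw [ArithmeticFunction.moebius_eq_zero_of_not_squarefree h]
    simp

lemma diag {q : ℕ} [Fact q.Prime] (χ : DirichletCharacter ℂ q) (U1 U2 j : ℕ) (hq : U2 + j < q) :
    ∑ i ∈ range j, ∑ u ∈ Ico U1 U2, ‖aa χ (u + i + 1)‖ ^ 2 =
      ∑ i ∈ range j, (((Ioc (U1 + i) (U2 + i)).filter (fun n => Squarefree n)).card : ℝ) := by
  refine Finset.sum_congr rfl fun i hi => ?_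
  rw [Finset.mem_range] at hi
  rw [Finset.card_filter]
  push_cast
  refine Finset.sum_nbij' (fun u => u + i + 1) (fun n => n - i - 1) ?_ ?_ ?_ ?_ ?_
  · intro u hu
    rw [Finset.mem_Ico] at hu
    rw [Finset.mem_Ioc]
    omega
  · intro n hn
    rw [Finset.mem_Ioc] at hn
    rw [Finset.mem_Ico]
    omega
  · intro u _
    omega
  · intro n hn
    rw [Finset.mem_Ioc] at hn
    omega
  · intro u hu
    rw [Finset.mem_Ico] at hu
    rw [norm_aa χ (by omega) (by omega)]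

lemma II_near {q : ℕ} [Fact q.Prime] (χ : DirichletCharacter ℂ q) {C1 : ℝ}
    (hS : ∀ A B : ℕ, A ≤ B →
      |(((Ioc A B).filter (fun n => Squarefree n)).card : ℝ) - 6 / Real.pi ^ 2 * ((B : ℝ) - A)| ≤ C1 * √(B : ℝ))
    {U1 U2 J N : ℕ} {L : ℝ} (hU : U1 ≤ U2) (hL : 0 ≤ L) (hQ : QQ χ U1 U2 J ≤ L ^ 2) {j : ℕ} (hj : j ≤ J + 1)
    (hN : U2 + j ≤ 9 * N) (hq : U2 + j < q) (hC : 0 ≤ C1) (hNL : √(N : ℝ) ≤ L) :
    |II χ U1 U2 j - 6 / Real.pi ^ 2 * (j * ((U2 : ℝ) - U1))| ≤ j * ((2 + 3 * C1) * L) := by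
  have h1 := t_DET q χ U1 U2 J L hL hQ j hj
  rw [diag χ U1 U2 j hq] at h1
  have h2 : |∑ i ∈ range j, (((Ioc (U1 + i) (U2 + i)).filter (fun n => Squarefree n)).card : ℝ) -
      6 / Real.pi ^ 2 * (j * ((U2 : ℝ) - U1))| ≤ j * (3 * C1 * L) := by
    have e : 6 / Real.pi ^ 2 * (j * ((U2 : ℝ) - U1)) = ∑ i ∈ range j, 6 / Real.pi ^ 2 * ((U2 : ℝ) - U1) := by
      rw [Finset.sum_const, Finset.card_range, nsmul_eq_mul]; ring
    rw [e, ← Finset.sum_sub_distrib]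
    refine (Finset.abs_sum_le_sum_abs _ _).trans ?_
    calc _ ≤ ∑ i ∈ range j, (3 * C1 * L) := by
          refine Finset.sum_le_sum fun i hi => ?_
          rw [Finset.mem_range] at hi
          have h3 := hS (U1 + i) (U2 + i) (by omega)
          have e2 : ((U2 + i : ℕ) : ℝ) - ((U1 + i : ℕ) : ℝ) = (U2 : ℝ) - U1 := by push_cast; ring
          rw [e2] at h3
          refine h3.trans ?_
          have h4 : √((U2 + i : ℕ) : ℝ) ≤ 3 * L := by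
            calc √((U2 + i : ℕ) : ℝ) ≤ √(9 * N : ℝ) := by
                  apply Real.sqrt_le_sqrt
                  exact_mod_cast (by omega : U2 + i ≤ 9 * N)
              _ = 3 * √(N : ℝ) := by
                  rw [Real.sqrt_mul (by norm_num), show (9 : ℝ) = 3 ^ 2 by norm_num, Real.sqrt_sq (by norm_num)]
              _ ≤ 3 * L := by linarith
          calc C1 * √((U2 + i : ℕ) : ℝ) ≤ C1 * (3 * L) := by gcongr
            _ = _ := by ring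
      _ = _ := by rw [Finset.sum_const, Finset.card_range, nsmul_eq_mul]
  calc _ = |(II χ U1 U2 j - ∑ i ∈ range j, (((Ioc (U1 + i) (U2 + i)).filter (fun n => Squarefree n)).card : ℝ)) +
        (∑ i ∈ range j, (((Ioc (U1 + i) (U2 + i)).filter (fun n => Squarefree n)).card : ℝ) -
      6 / Real.pi ^ 2 * (j * ((U2 : ℝ) - U1)))| := by congr 1; ring
    _ ≤ 2 * (j * L) + j * (3 * C1 * L) := (abs_add_le _ _).trans (add_le_add h1 h2)
    _ = _ := by ring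

/-- the mixture of the two lengths -/
noncomputable def mix {q : ℕ} (χ : DirichletCharacter ℂ q) (U1 U2 : ℕ) (H : ℝ) : ℝ :=
  (1 - Int.fract H) * II χ U1 U2 ⌊H⌋₊ + Int.fract H * II χ U1 U2 (⌊H⌋₊ + 1)

lemma mix_near {q : ℕ} [Fact q.Prime] (χ : DirichletCharacter ℂ q) {C1 : ℝ}
    (hS : ∀ A B : ℕ, A ≤ B →
      |(((Ioc A B).filter (fun n => Squarefree n)).card : ℝ) - 6 / Real.pi ^ 2 * ((B : ℝ) - A)| ≤ C1 * √(B : ℝ))
    {U1 U2 J N : ℕ} {L H : ℝ} (hU : U1 ≤ U2) (hL : 0 ≤ L) (hQ : QQ χ U1 U2 J ≤ L ^ 2) (hH : 1 ≤ H)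
    (hj : ⌊H⌋₊ ≤ J) (hN : U2 + (⌊H⌋₊ + 1) ≤ 9 * N) (hq : U2 + (⌊H⌋₊ + 1) < q) (hC : 0 ≤ C1)
    (hNL : √(N : ℝ) ≤ L) :
    |mix χ U1 U2 H - 6 / Real.pi ^ 2 * (H * ((U2 : ℝ) - U1))| ≤ 2 * H * ((2 + 3 * C1) * L) := by
  have h1 := II_near χ hS hU hL hQ (j := ⌊H⌋₊) (by omega) (by omega) (by omega) hC hNL
  have h2 := II_near χ hS hU hL hQ (j := ⌊H⌋₊ + 1) (by omega) hN hq hC hNL
  have hf0 := Int.fract_nonneg H
  have hf1 := (Int.fract_lt_one H).le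
  have hfl : (⌊H⌋₊ : ℝ) + Int.fract H = H := by
    have : ((⌊H⌋₊ : ℕ) : ℝ) = (⌊H⌋ : ℝ) := by
      rw [← Int.natCast_floor_eq_floor (by linarith)]; simp
    rw [this]; exact Int.floor_add_fract H
  obtain ⟨j, hjd⟩ : ∃ j : ℕ, j = ⌊H⌋₊ := ⟨_, rfl⟩
  unfold mix
  rw [← hjd] at h1 h2 hfl ⊢
  obtain ⟨θ, hθ⟩ : ∃ θ, θ = Int.fract H := ⟨_, rfl⟩
  rw [← hθ] at hf0 hf1 hfl ⊢
  have hjH : (j : ℝ) ≤ H := by linarith
  set D := (2 + 3 * C1) * L with hD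
  have hD0 : 0 ≤ D := by positivity
  set c := 6 / Real.pi ^ 2
  set w := (U2 : ℝ) - U1
  push_cast at h2
  have e : (1 - θ) * II χ U1 U2 j + θ * II χ U1 U2 (j + 1) - c * (H * w) =
      (1 - θ) * (II χ U1 U2 j - c * (j * w)) + θ * (II χ U1 U2 (j + 1) - c * ((j + 1) * w)) := by
    rw [← hfl]; ring
  rw [e]
  calc |(1 - θ) * (II χ U1 U2 j - c * (j * w)) + θ * (II χ U1 U2 (j + 1) - c * ((j + 1) * w))|
      ≤ |(1 - θ) * (II χ U1 U2 j - c * (j * w))| + |θ * (II χ U1 U2 (j + 1) - c * ((j + 1) * w))| := abs_add_le _ _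
    _ = (1 - θ) * |II χ U1 U2 j - c * (j * w)| + θ * |II χ U1 U2 (j + 1) - c * ((j + 1) * w)| := by
        rw [abs_mul, abs_mul, abs_of_nonneg hf0, abs_of_nonneg (by linarith : (0 : ℝ) ≤ 1 - θ)]
    _ ≤ (1 - θ) * (j * D) + θ * ((j + 1) * D) := by
        have : (0 : ℝ) ≤ 1 - θ := by linarith
        gcongr
    _ = (j + θ) * D := by ring
    _ = H * D := by rw [hfl]
    _ ≤ 2 * H * D := by nlinarith

end Pool.Agent.K1H54.GC
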