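import Pool.Agent.K1H54.GC.Fin

/-!
Assembly, part 2: the variance from the windows with endpoints in a grid.
-/

set_option autoImplicit false

namespace Pool.Agent.K1H54.GC

open Finset

lemma c_le : 6 / Real.pi ^ 2 ≤ 1 := by
  rw [div_le_one (by positivity)]
  nlinarith [Real.pi_gt_three]

theorem good (hSand : S_SAND) {q : ℕ} [Fact q.Prime] (χ : DirichletCharacter ℂ q) {C1 : ℝ}
    (hS : ∀ A B : ℕ, A ≤ B →
      |(((Ioc A B).filter (fun n => Squarefree n)).card : ℝ) - 6 / Real.pi ^ 2 * ((B : ℝ) - A)| ≤ C1 * √(B : ℝ))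
    (hC : 0 ≤ C1) {N g J : ℕ} {L X H : ℝ} (hN : 1 ≤ N) (hg : 1 ≤ g) (hgN : g ≤ N) (hgL : (g : ℝ) ≤ L)
    (hNL : √(N : ℝ) ≤ L) (hX1 : (N : ℝ) ≤ X) (hX2 : X ≤ 2 * N) (hH : 1 ≤ H) (hHX : H ≤ X) (hJ : ⌊H⌋₊ ≤ J)
    (hHq : 16 * H * X ≤ q) (hQ : ∀ a b : ℕ, a ≤ b → b * g ≤ 6 * N → QQ χ (a * g) (b * g) J ≤ L ^ 2) :
    |X * VV χ X H - 6 / Real.pi ^ 2 * (H * X)| ≤ (6 + 6 * C1) * (H * L) := by
  have hN' : (1 : ℝ) ≤ N := by exact_mod_cast hN
  have hg' : (1 : ℝ) ≤ g := by exact_mod_cast hg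
  have hgN' : (g : ℝ) ≤ N := by exact_mod_cast hgN
  have hL : 0 ≤ L := by linarith
  have hX0 : 0 < X := by linarith
  have hq16 : 16 * (N : ℝ) ≤ q := by
    have : (N : ℝ) ≤ H * X := by nlinarith
    linarith
  have hq16' : 16 * N ≤ q := by exact_mod_cast hq16
  have hfl : (⌊H⌋₊ : ℝ) ≤ H := Nat.floor_le (by linarith)
  have hfl2 : ⌊H⌋₊ ≤ 2 * N := by
    have : (⌊H⌋₊ : ℝ) ≤ 2 * N := by linarith
    exact_mod_cast this
  have hg0 : (0 : ℝ) < g := by linarith
  have hc := c_le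
  have hc0 : 0 ≤ 6 / Real.pi ^ 2 := by positivity
  have hXV : X * VV χ X H = ∫ x in X..2 * X, ‖MM χ x H‖ ^ 2 := by
    unfold VV; field_simp
  rw [hXV]
  set c := 6 / Real.pi ^ 2
  have hD : 2 * H * ((2 + 3 * C1) * L) = (4 + 6 * C1) * (H * L) := by ring
  have hHL : 0 ≤ H * L := by positivity
  have hHg : H * g ≤ H * L := by gcongr
  -- upper bound
  have hup : ∫ x in X..2 * X, ‖MM χ x H‖ ^ 2 ≤ c * (H * X) + (6 + 6 * C1) * (H * L) := by
    obtain ⟨a, ha⟩ : ∃ a, a = ⌊(X - H / 2) / g⌋₊ := ⟨_, rfl⟩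
    obtain ⟨b, hb⟩ : ∃ b, b = ⌈(2 * X - H / 2) / g⌉₊ := ⟨_, rfl⟩
    have ha1 : (a : ℝ) ≤ (X - H / 2) / g := by
      rw [ha]; exact Nat.floor_le (div_nonneg (by linarith) hg0.le)
    have ha2 : (X - H / 2) / g < a + 1 := by rw [ha]; exact Nat.lt_floor_add_one _
    have hb1 : (2 * X - H / 2) / g ≤ b := by rw [hb]; exact Nat.le_ceil _
    have hb2 : (b : ℝ) < (2 * X - H / 2) / g + 1 := by
      rw [hb]; exact Nat.ceil_lt_add_one (div_nonneg (by linarith) hg0.le)
    rw [le_div_iff₀ hg0] at ha1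
    rw [div_lt_iff₀ hg0] at ha2
    rw [div_le_iff₀ hg0] at hb1
    have hb3 : (b : ℝ) * g < 2 * X - H / 2 + g := by
      have := mul_lt_mul_of_pos_right hb2 hg0
      rw [add_mul, div_mul_cancel₀ _ hg0.ne', one_mul] at this
      exact this
    have hbN : b * g ≤ 5 * N := by
      have : (b : ℝ) * g ≤ 5 * N := by linarith
      exact_mod_cast this
    have hab : a ≤ b := by
      have : (a : ℝ) * g ≤ b * g := by linarith
      have := le_of_mul_le_mul_right this hg0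
      exact_mod_cast this
    have h1 := mix_near χ hS (N := N) (Nat.mul_le_mul_right g hab) hL (hQ a b hab (by omega)) hH hJ
      (by omega) (by omega) hC hNL
    have h2 := (hSand q χ X H (a * g) (b * g) hH hX0 (Nat.mul_le_mul_right g hab)).1
      (by push_cast; linarith) (by push_cast; linarith)
    have h3 : ∫ x in X..2 * X, ‖MM χ x H‖ ^ 2 ≤ mix χ (a * g) (b * g) H := h2
    have h4 := (abs_le.1 h1).2
    push_cast at h4
    rw [hD] at h4
    have h5 : c * (H * ((b : ℝ) * g - a * g)) ≤ c * (H * (X + 2 * g)) := by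
      gcongr
      linarith
    have h6 : c * (H * g) ≤ 1 * (H * L) := by gcongr
    nlinarith
  have hlow : c * (H * X) - (6 + 6 * C1) * (H * L) ≤ ∫ x in X..2 * X, ‖MM χ x H‖ ^ 2 := by
    rcases le_or_gt (2 * (g : ℝ)) X with h2g | h2g
    · obtain ⟨a, ha⟩ : ∃ a, a = ⌈(X - H / 2) / g⌉₊ := ⟨_, rfl⟩
      obtain ⟨b, hb⟩ : ∃ b, b = ⌊(2 * X - H / 2) / g⌋₊ := ⟨_, rfl⟩
      have hb1 : (b : ℝ) ≤ (2 * X - H / 2) / g := by
        rw [hb]; exact Nat.floor_le (div_nonneg (by linarith) hg0.le)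
      have hb2 : (2 * X - H / 2) / g < b + 1 := by rw [hb]; exact Nat.lt_floor_add_one _
      have ha1 : (X - H / 2) / g ≤ a := by rw [ha]; exact Nat.le_ceil _
      have ha2 : (a : ℝ) < (X - H / 2) / g + 1 := by
        rw [ha]; exact Nat.ceil_lt_add_one (div_nonneg (by linarith) hg0.le)
      rw [le_div_iff₀ hg0] at hb1
      rw [div_lt_iff₀ hg0] at hb2
      rw [div_le_iff₀ hg0] at ha1
      have ha3 : (a : ℝ) * g < X - H / 2 + g := by
        have := mul_lt_mul_of_pos_right ha2 hg0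
        rw [add_mul, div_mul_cancel₀ _ hg0.ne', one_mul] at this
        exact this
      have hbN : b * g ≤ 5 * N := by
        have : (b : ℝ) * g ≤ 5 * N := by linarith
        exact_mod_cast this
      have hab : a ≤ b := by
        have : (a : ℝ) * g ≤ b * g := by linarith
        have := le_of_mul_le_mul_right this hg0
        exact_mod_cast this
      have h1 := mix_near χ hS (N := N) (Nat.mul_le_mul_right g hab) hL (hQ a b hab (by omega)) hH hJ
        (by omega) (by omega) hC hNL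
      have h2 := (hSand q χ X H (a * g) (b * g) hH hX0 (Nat.mul_le_mul_right g hab)).2
        (by push_cast; linarith) (by push_cast; linarith)
      have h3 : mix χ (a * g) (b * g) H ≤ ∫ x in X..2 * X, ‖MM χ x H‖ ^ 2 := h2
      have h4 := (abs_le.1 h1).1
      push_cast at h4
      rw [hD] at h4
      have h5 : c * (H * (X - 2 * g)) ≤ c * (H * ((b : ℝ) * g - a * g)) :=
        mul_le_mul_of_nonneg_left (mul_le_mul_of_nonneg_left (by linarith) (by linarith)) hc0
      have h6 : c * (H * g) ≤ 1 * (H * L) := by gcongr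
      nlinarith
    · have h0 : 0 ≤ ∫ x in X..2 * X, ‖MM χ x H‖ ^ 2 :=
        intervalIntegral.integral_nonneg (by linarith) fun x _ => by positivity
      have h1 : c * (H * X) ≤ 1 * (H * (2 * L)) := by
        gcongr
        linarith
      have h2 : 0 ≤ C1 * (H * L) := by positivity
      nlinarith
  rw [abs_le]
  constructor <;> linarith

end Pool.Agent.K1H54.GC
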