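import Pool.Agent.K1H54.GC.Fin2

/-!
Assembly, part 3: the second moment and the union bound.
-/

set_option autoImplicit false

namespace Pool.Agent.K1H54.GC

open Finset

lemma moment (hCNT : S_CNT) (hMOM : S_MOM) {q : ℕ} [Fact q.Prime] {U1 U2 J N : ℕ} (hU : U1 ≤ U2)
    (hUN : U2 ≤ 6 * N) (hJN : J ≤ 2 * N) (hJq : 16 * N * J ≤ q) :
    ∑ χ : DirichletCharacter ℂ q, QQ χ U1 U2 J ≤ q * (8 * N * J * (1 + Real.log J) ^ 2) := by
  unfold QQ
  rw [Finset.sum_comm]
  calc ∑ j ∈ Icc 1 J, ∑ χ : DirichletCharacter ℂ q, ‖ZZ χ U1 U2 j‖ ^ 2 / j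
      ≤ ∑ j ∈ Icc 1 J, (q : ℝ) * (8 * N * (1 + Real.log J) ^ 2) := by
        refine Finset.sum_le_sum fun j hj => ?_
        rw [Finset.mem_Icc] at hj
        have hj1 : (1 : ℝ) ≤ j := by exact_mod_cast hj.1
        have hJ1 : (j : ℝ) ≤ J := by exact_mod_cast hj.2
        rw [← Finset.sum_div]
        have hlt : (U2 + j) * j < q := by
          have h1 : (U2 + j) * j ≤ (6 * N + 2 * N) * J :=
            Nat.mul_le_mul (by omega) hj.2
          have h2 : 0 < N * J := Nat.mul_pos (by omega) (by omega)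
          nlinarith
        have h1 := hMOM q U1 U2 j hlt
        have h2 := hCNT (U1 + j) (U2 + j) j (by omega) hj.1
        have e : ((U2 + j : ℕ) : ℝ) - ((U1 + j : ℕ) : ℝ) = (U2 : ℝ) - U1 := by push_cast; ring
        rw [e] at h2
        have hlog : Real.log j ≤ Real.log J := Real.log_le_log (by linarith) hJ1
        have hlog0 : 0 ≤ Real.log j := Real.log_nonneg hj1
        have hU2 : (U2 : ℝ) ≤ 6 * N := by exact_mod_cast hUN
        have hJN' : (J : ℝ) ≤ 2 * N := by exact_mod_cast hJN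
        have hU0 : (0 : ℝ) ≤ (U2 : ℝ) - U1 := by
          have : (U1 : ℝ) ≤ U2 := by exact_mod_cast hU
          linarith
        have hU1 : (0 : ℝ) ≤ U1 := Nat.cast_nonneg _
        have hN0 : (0 : ℝ) ≤ N := Nat.cast_nonneg _
        have hq0 : (0 : ℝ) ≤ q := Nat.cast_nonneg _
        rw [div_le_iff₀ (by linarith)]
        refine h1.trans ?_
        rw [mul_assoc]
        refine mul_le_mul_of_nonneg_left ?_ hq0
        refine h2.trans ?_
        have h3 : (1 + Real.log j) ^ 2 ≤ (1 + Real.log J) ^ 2 := by gcongr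
        have h4 : (1 : ℝ) ≤ (1 + Real.log J) ^ 2 := by
          have : (1 : ℝ) ≤ 1 + Real.log J := by linarith
          nlinarith
        calc ((U2 : ℝ) - U1) * j * (1 + Real.log j) ^ 2 + (j : ℝ) ^ 2
            ≤ (6 * N) * j * (1 + Real.log J) ^ 2 + (2 * N) * j * (1 + Real.log J) ^ 2 := by
              refine add_le_add ?_ ?_
              · gcongr
                linarith
              · calc (j : ℝ) ^ 2 = j * j * 1 := by ring
                  _ ≤ (2 * N) * j * (1 + Real.log J) ^ 2 := by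
                      gcongr
                      linarith
          _ = 8 * N * (1 + Real.log J) ^ 2 * j := by ring
    _ = _ := by
        rw [Finset.sum_const, Nat.card_Icc, nsmul_eq_mul]
        push_cast
        ring_nf
        try simp

lemma QQ_nonneg {q : ℕ} (χ : DirichletCharacter ℂ q) (U1 U2 J : ℕ) : 0 ≤ QQ χ U1 U2 J :=
  Finset.sum_nonneg fun _ _ => by positivity

open Classical in
lemma markov (hCNT : S_CNT) (hMOM : S_MOM) {q : ℕ} [Fact q.Prime] {U1 U2 J N : ℕ} {L : ℝ} (hL : 0 < L)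
    (hU : U1 ≤ U2) (hUN : U2 ≤ 6 * N) (hJN : J ≤ 2 * N) (hJq : 16 * N * J ≤ q) :
    (((univ : Finset (DirichletCharacter ℂ q)).filter (fun χ => L ^ 2 < QQ χ U1 U2 J)).card : ℝ) ≤
      q * (8 * N * J * (1 + Real.log J) ^ 2) / L ^ 2 := by
  rw [le_div_iff₀ (by positivity)]
  refine le_trans ?_ (moment hCNT hMOM hU hUN hJN hJq)
  calc (((univ : Finset (DirichletCharacter ℂ q)).filter (fun χ => L ^ 2 < QQ χ U1 U2 J)).card : ℝ) * L ^ 2
      = ∑ χ ∈ (univ : Finset (DirichletCharacter ℂ q)).filter (fun χ => L ^ 2 < QQ χ U1 U2 J), L ^ 2 := by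
        rw [Finset.sum_const, nsmul_eq_mul]
    _ ≤ ∑ χ ∈ (univ : Finset (DirichletCharacter ℂ q)).filter (fun χ => L ^ 2 < QQ χ U1 U2 J), QQ χ U1 U2 J :=
        Finset.sum_le_sum fun χ hχ => (Finset.mem_filter.1 hχ).2.le
    _ ≤ _ := Finset.sum_le_sum_of_subset_of_nonneg (Finset.filter_subset _ _) fun χ _ _ => QQ_nonneg χ _ _ _

/-- the exceptional set at one scale -/
def Bad (q N g J : ℕ) (L : ℝ) : Set (DirichletCharacter ℂ q) :=
  {χ | ∃ a b : ℕ, a ≤ b ∧ b * g ≤ 6 * N ∧ L ^ 2 < QQ χ (a * g) (b * g) J}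

open Classical in
lemma bad_card (hCNT : S_CNT) (hMOM : S_MOM) {q : ℕ} [Fact q.Prime] {N g J : ℕ} {L : ℝ} (hL : 0 < L)
    (hg : 1 ≤ g) (hJN : J ≤ 2 * N) (hJq : 16 * N * J ≤ q) :
    (((univ : Finset (DirichletCharacter ℂ q)).filter (fun χ => χ ∈ Bad q N g J L)).card : ℝ) ≤
      (6 * N / g + 1) ^ 2 * (q * (8 * N * J * (1 + Real.log J) ^ 2) / L ^ 2) := by
  set K := 6 * N / g with hK
  set M := q * (8 * N * J * (1 + Real.log J) ^ 2) / L ^ 2 with hM
  have hM0 : 0 ≤ M := by positivity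
  have hsub : (univ : Finset (DirichletCharacter ℂ q)).filter (fun χ => χ ∈ Bad q N g J L) ⊆
      (range (K + 1) ×ˢ range (K + 1)).biUnion (fun p =>
        if p.1 ≤ p.2 ∧ p.2 * g ≤ 6 * N then
          (univ : Finset (DirichletCharacter ℂ q)).filter (fun χ => L ^ 2 < QQ χ (p.1 * g) (p.2 * g) J) else ∅) := by
    intro χ hχ
    obtain ⟨a, b, hab, hb, h⟩ := (Finset.mem_filter.1 hχ).2
    rw [Finset.mem_biUnion]
    have hbK : b ≤ K := (Nat.le_div_iff_mul_le hg).2 hb
    refine ⟨(a, b), ?_, ?_⟩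
    · rw [Finset.mem_product, Finset.mem_range, Finset.mem_range]
      constructor <;> dsimp only <;> omega
    · dsimp only
      rw [if_pos ⟨hab, hb⟩, Finset.mem_filter]
      exact ⟨Finset.mem_univ _, h⟩
  calc (((univ : Finset (DirichletCharacter ℂ q)).filter (fun χ => χ ∈ Bad q N g J L)).card : ℝ)
      ≤ (((range (K + 1) ×ˢ range (K + 1)).biUnion (fun p =>
        if p.1 ≤ p.2 ∧ p.2 * g ≤ 6 * N then
          (univ : Finset (DirichletCharacter ℂ q)).filter (fun χ => L ^ 2 < QQ χ (p.1 * g) (p.2 * g) J)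
          else ∅)).card : ℝ) := by exact_mod_cast Finset.card_le_card hsub
    _ ≤ ((∑ p ∈ range (K + 1) ×ˢ range (K + 1), (if p.1 ≤ p.2 ∧ p.2 * g ≤ 6 * N then
          (univ : Finset (DirichletCharacter ℂ q)).filter (fun χ => L ^ 2 < QQ χ (p.1 * g) (p.2 * g) J)
          else ∅).card : ℕ) : ℝ) := by exact_mod_cast Finset.card_biUnion_le
    _ ≤ ∑ p ∈ range (K + 1) ×ˢ range (K + 1), M := by
        push_cast
        refine Finset.sum_le_sum fun p _ => ?_
        split_ifs with h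
        · exact markov hCNT hMOM hL (Nat.mul_le_mul_right g h.1) h.2 hJN hJq
        · simpa using hM0
    _ = ((K : ℝ) + 1) ^ 2 * M := by
        rw [Finset.sum_const, Finset.card_product, Finset.card_range, nsmul_eq_mul]
        push_cast
        ring
    _ ≤ _ := by
        gcongr
        rw [hK]
        have := @Nat.cast_div_le ℝ _ _ _ (6 * N) g
        push_cast at this
        exact this

end Pool.Agent.K1H54.GC
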