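import Pool.Agent.K1H54.GC.Fin3

/-!
Assembly, part 4: the choice of the parameters.
-/

set_option autoImplicit false

namespace Pool.Agent.K1H54.GC

open Finset

open Classical in
lemma bad_bound (hCNT : S_CNT) (hMOM : S_MOM) {ε : ℝ} (hε : 0 < ε) (hε2 : ε ≤ 1 / 2) :
    ∃ C : ℝ, 0 ≤ C ∧ ∀ (q : ℕ) [Fact q.Prime] (N J : ℕ), 1 ≤ N → (J : ℝ) ≤ (2 * (N : ℝ)) ^ (1 - ε) →
      16 * N * J ≤ q →
      (((univ : Finset (DirichletCharacter ℂ q)).filter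
        (fun χ => χ ∈ Bad q N ⌊(N : ℝ) ^ (1 - ε / 16)⌋₊ J ((N : ℝ) ^ (1 - ε / 16)))).card : ℝ) ≤
        C * q * (N : ℝ) ^ (-(ε / 2)) := by
  refine ⟨169 * 16 * (1 + 16 / ε) ^ 2, by positivity, ?_⟩
  intro q _ N J hN hJ hJq
  have hx1 : (1 : ℝ) ≤ N := by exact_mod_cast hN
  obtain ⟨x, hx⟩ : ∃ x : ℝ, x = N := ⟨_, rfl⟩
  rw [← hx] at hJ hx1 ⊢
  have hx0 : 0 < x := by linarith
  obtain ⟨y, hy⟩ : ∃ y : ℝ, y = x ^ (ε / 16) := ⟨_, rfl⟩
  have hy1 : 1 ≤ y := by rw [hy]; exact Real.one_le_rpow hx1 (by positivity)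
  have hy0 : 0 < y := by linarith
  have e1 : x ^ (1 - ε / 16) = x / y := by rw [Real.rpow_sub hx0, Real.rpow_one, hy]
  have e16 : x ^ ε = y ^ 16 := by
    rw [hy, ← Real.rpow_natCast, ← Real.rpow_mul hx0.le]; congr 1; push_cast; ring
  have e2 : x ^ (1 - ε) = x / y ^ 16 := by rw [Real.rpow_sub hx0, Real.rpow_one, e16]
  have e3 : x ^ (ε / 8) = y ^ 2 := by
    rw [hy, ← Real.rpow_natCast, ← Real.rpow_mul hx0.le]; congr 1; push_cast; ring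
  have e4 : x ^ (-(ε / 2)) = (y ^ 8)⁻¹ := by
    rw [Real.rpow_neg hx0.le, hy, ← Real.rpow_natCast, ← Real.rpow_mul hx0.le]; congr 2; push_cast; ring
  have hL1 : 1 ≤ x ^ (1 - ε / 16) := Real.one_le_rpow hx1 (by linarith)
  set L := x ^ (1 - ε / 16) with hLd
  have hg1 : 1 ≤ ⌊L⌋₊ := Nat.one_le_floor_iff L |>.2 hL1
  have hg1' : (1 : ℝ) ≤ ⌊L⌋₊ := by exact_mod_cast hg1
  have hg2 : L ≤ 2 * (⌊L⌋₊ : ℝ) := by
    have := Nat.lt_floor_add_one L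
    linarith
  have hJ2 : (J : ℝ) ≤ 2 * x := by
    refine hJ.trans ?_
    calc (2 * x) ^ (1 - ε) ≤ (2 * x) ^ (1 : ℝ) :=
          Real.rpow_le_rpow_of_exponent_le (by linarith) (by linarith)
      _ = 2 * x := Real.rpow_one _
  have hJN : J ≤ 2 * N := by rw [hx] at hJ2; exact_mod_cast hJ2
  have hJ3 : (J : ℝ) ≤ 2 * (x / y ^ 16) := by
    refine hJ.trans ?_
    rw [Real.mul_rpow (by norm_num) hx0.le, e2]
    have : (2 : ℝ) ^ (1 - ε) ≤ 2 := by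
      calc (2 : ℝ) ^ (1 - ε) ≤ 2 ^ (1 : ℝ) := Real.rpow_le_rpow_of_exponent_le (by norm_num) (by linarith)
        _ = 2 := Real.rpow_one _
    gcongr
  have hlog : 1 + Real.log J ≤ (1 + 16 / ε) * y ^ 2 := by
    have h1 : Real.log J ≤ Real.log (2 * x) := by
      rcases Nat.eq_zero_or_pos J with h | h
      · rw [h, Nat.cast_zero, Real.log_zero]
        exact Real.log_nonneg (by linarith)
      · exact Real.log_le_log (by exact_mod_cast h) hJ2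
    have h2 : Real.log (2 * x) ≤ (2 * x) ^ (ε / 8) / (ε / 8) :=
      Real.log_le_rpow_div (by linarith) (by positivity)
    have h3 : (2 * x) ^ (ε / 8) ≤ 2 * y ^ 2 := by
      rw [Real.mul_rpow (by norm_num) hx0.le, e3]
      have : (2 : ℝ) ^ (ε / 8) ≤ 2 := by
        calc (2 : ℝ) ^ (ε / 8) ≤ 2 ^ (1 : ℝ) := Real.rpow_le_rpow_of_exponent_le (by norm_num) (by linarith)
          _ = 2 := Real.rpow_one _
      gcongr
    have h4 : (2 * x) ^ (ε / 8) / (ε / 8) ≤ 2 * y ^ 2 / (ε / 8) := by gcongr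
    have h5 : (1 : ℝ) ≤ y ^ 2 := one_le_pow₀ hy1
    have h6 : 2 * y ^ 2 / (ε / 8) = 16 / ε * y ^ 2 := by field_simp; ring
    calc 1 + Real.log J ≤ y ^ 2 + 16 / ε * y ^ 2 := by linarith
      _ = _ := by ring
  have hlog0 : 0 ≤ 1 + Real.log J := by
    rcases Nat.eq_zero_or_pos J with h | h
    · rw [h, Nat.cast_zero, Real.log_zero]; norm_num
    · have := Real.log_nonneg (by exact_mod_cast h : (1 : ℝ) ≤ J)
      linarith
  have hb := bad_card hCNT hMOM (q := q) (by linarith : 0 < L) hg1 hJN hJq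
  refine hb.trans ?_
  rw [← hx]
  have hK : 6 * x / (⌊L⌋₊ : ℝ) + 1 ≤ 13 * y := by
    have h1 : 6 * x / (⌊L⌋₊ : ℝ) ≤ 12 * y := by
      rw [div_le_iff₀ (by linarith)]
      have h2 : x = L * y := by rw [e1]; field_simp
      calc 6 * x = 6 * y * L := by rw [h2]; ring
        _ ≤ 6 * y * (2 * (⌊L⌋₊ : ℝ)) := by gcongr
        _ = _ := by ring
    linarith
  have hq0 : (0 : ℝ) ≤ q := Nat.cast_nonneg _
  calc (6 * x / (⌊L⌋₊ : ℝ) + 1) ^ 2 * (q * (8 * x * J * (1 + Real.log J) ^ 2) / L ^ 2)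
      ≤ (13 * y) ^ 2 * (q * (8 * x * (2 * (x / y ^ 16)) * ((1 + 16 / ε) * y ^ 2) ^ 2) / L ^ 2) := by
        gcongr
    _ = 169 * 16 * (1 + 16 / ε) ^ 2 * q * (y ^ 8)⁻¹ := by
        rw [e1]; field_simp; ring
    _ = _ := by rw [e4]

end Pool.Agent.K1H54.GC
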