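import Pool.Agent.K1H54.GC.Fin4

/-!
Assembly, part 5: the union over the scales.
-/

set_option autoImplicit false

namespace Pool.Agent.K1H54.GC

open Finset

/-- the deviation of the variance -/
def Dev (q : ℕ) (ε δ C : ℝ) : Set (DirichletCharacter ℂ q) :=
  {χ | ∃ X H : ℝ, (q : ℝ) ^ ε ≤ X ∧ 1 ≤ H ∧ H ≤ X ^ (1 - ε) ∧ 16 * H * X ≤ q ∧
    C * (H * X ^ (-δ)) < |VV χ X H - 6 / Real.pi ^ 2 * H|}

open Classical in
theorem main1 (hCNT : S_CNT) (hMOM : S_MOM) (hSQF : S_SQF) (hSand : S_SAND) {ε : ℝ} (hε : 0 < ε)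
    (hε2 : ε ≤ 1 / 2) :
    ∃ δ C : ℝ, 0 < δ ∧ ∀ (q : ℕ) [Fact q.Prime],
      (((univ : Finset (DirichletCharacter ℂ q)).filter (fun χ => χ ∈ Dev q ε δ C)).card : ℝ) ≤
        C * (q : ℝ) ^ (1 - δ) := by
  obtain ⟨C0, hC0⟩ := hSQF
  obtain ⟨C1, hC1⟩ : ∃ C1, C1 = max C0 0 := ⟨_, rfl⟩
  have hC1n : 0 ≤ C1 := by rw [hC1]; exact le_max_right _ _
  have hS : ∀ A B : ℕ, A ≤ B →
      |(((Ioc A B).filter (fun n => Squarefree n)).card : ℝ) - 6 / Real.pi ^ 2 * ((B : ℝ) - A)| ≤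
        C1 * √(B : ℝ) := by
    intro A B hAB
    refine (hC0 A B hAB).trans ?_
    rw [hC1]
    gcongr
    exact le_max_left _ _
  obtain ⟨Cb, hCb0, hCb⟩ := bad_bound hCNT hMOM hε hε2
  obtain ⟨r, hr⟩ : ∃ r : ℝ, r = 2 ^ (-(ε / 4)) := ⟨_, rfl⟩
  have hr0 : 0 ≤ r := by rw [hr]; positivity
  have hr1 : r < 1 := by
    rw [hr]; exact Real.rpow_lt_one_of_one_lt_of_neg (by norm_num) (by linarith)
  obtain ⟨C, hC⟩ : ∃ C : ℝ, C = max (Cb * (2 * (1 - r)⁻¹)) (6 + 6 * C1) := ⟨_, rfl⟩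
  refine ⟨ε ^ 2 / 16, C, by positivity, ?_⟩
  intro q _
  have hqp : q.Prime := Fact.out
  have hq1 : (1 : ℝ) ≤ q := by exact_mod_cast hqp.one_lt.le
  have hq0 : (0 : ℝ) < q := by linarith
  set Jk : ℕ → ℕ := fun k => ⌊min ((2 * (2 : ℝ) ^ k) ^ (1 - ε)) (q / (16 * 2 ^ k))⌋₊ with hJk
  set BB : ℕ → Set (DirichletCharacter ℂ q) := fun k =>
    Bad q (2 ^ k) ⌊((2 ^ k : ℕ) : ℝ) ^ (1 - ε / 16)⌋₊ (Jk k) (((2 ^ k : ℕ) : ℝ) ^ (1 - ε / 16)) with hBB
  have hJ1 : ∀ k, (Jk k : ℝ) ≤ (2 * ((2 ^ k : ℕ) : ℝ)) ^ (1 - ε) := by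
    intro k
    have h0 : 0 ≤ min ((2 * (2 : ℝ) ^ k) ^ (1 - ε)) (q / (16 * 2 ^ k)) := by positivity
    refine (Nat.floor_le h0).trans ?_
    push_cast
    exact min_le_left _ _
  have hJ2 : ∀ k, 16 * 2 ^ k * Jk k ≤ q := by
    intro k
    have h0 : 0 ≤ min ((2 * (2 : ℝ) ^ k) ^ (1 - ε)) (q / (16 * 2 ^ k)) := by positivity
    have h1 : (Jk k : ℝ) ≤ q / (16 * 2 ^ k) := (Nat.floor_le h0).trans (min_le_right _ _)
    rw [le_div_iff₀ (by positivity)] at h1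
    have h2 : ((16 * 2 ^ k * Jk k : ℕ) : ℝ) ≤ q := by push_cast; linarith
    exact_mod_cast h2
  -- the union
  have hsub : (univ : Finset (DirichletCharacter ℂ q)).filter (fun χ => χ ∈ Dev q ε (ε ^ 2 / 16) C) ⊆
      ((range q).filter (fun k => (q : ℝ) ^ ε ≤ 2 * 2 ^ k)).biUnion (fun k =>
        (univ : Finset (DirichletCharacter ℂ q)).filter (fun χ => χ ∈ BB k)) := by
    intro χ hχ
    obtain ⟨X, H, hX, hH, hHX, hHq, hdev⟩ := (Finset.mem_filter.1 hχ).2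
    have hX1 : 1 ≤ X := (Real.one_le_rpow hq1 hε.le).trans hX
    have hX0 : 0 < X := by linarith
    obtain ⟨k, hk⟩ : ∃ k, k = Nat.log 2 ⌊X⌋₊ := ⟨_, rfl⟩
    have hfl1 : 1 ≤ ⌊X⌋₊ := Nat.one_le_floor_iff X |>.2 hX1
    have hk1 : ((2 ^ k : ℕ) : ℝ) ≤ X := by
      have h1 : 2 ^ k ≤ ⌊X⌋₊ := by rw [hk]; exact Nat.pow_log_le_self 2 (by omega)
      have h2 : ((2 ^ k : ℕ) : ℝ) ≤ (⌊X⌋₊ : ℝ) := by exact_mod_cast h1
      exact h2.trans (Nat.floor_le hX0.le)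
    have hk2 : X ≤ 2 * ((2 ^ k : ℕ) : ℝ) := by
      have h1 : ⌊X⌋₊ < 2 ^ (k + 1) := by rw [hk]; exact Nat.lt_pow_succ_log_self (by norm_num) _
      have h2 : X < (⌊X⌋₊ : ℝ) + 1 := Nat.lt_floor_add_one X
      have h3 : ((⌊X⌋₊ + 1 : ℕ) : ℝ) ≤ ((2 ^ (k + 1) : ℕ) : ℝ) := by exact_mod_cast h1
      push_cast at h3
      push_cast
      rw [pow_succ] at h3
      linarith
    have hXq : X ≤ q := by nlinarith
    rw [Finset.mem_biUnion]
    refine ⟨k, ?_, ?_⟩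
    · rw [Finset.mem_filter, Finset.mem_range]
      constructor
      · have h1 : ((2 ^ k : ℕ) : ℝ) ≤ q := hk1.trans hXq
        have h2 : 2 ^ k ≤ q := by exact_mod_cast h1
        exact (Nat.lt_two_pow_self).trans_le h2
      · push_cast at hk2
        exact hX.trans hk2
    · rw [Finset.mem_filter]
      refine ⟨Finset.mem_univ _, ?_⟩
      by_contra hcon
      apply absurd hdev
      rw [not_lt]
      have hN1 : 1 ≤ 2 ^ k := Nat.one_le_two_pow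
      have hN1' : (1 : ℝ) ≤ ((2 ^ k : ℕ) : ℝ) := by exact_mod_cast hN1
      obtain ⟨N, hN⟩ : ∃ N, N = 2 ^ k := ⟨_, rfl⟩
      have hcon' : χ ∉ Bad q N ⌊(N : ℝ) ^ (1 - ε / 16)⌋₊ (Jk k) ((N : ℝ) ^ (1 - ε / 16)) := by
        rw [hN]; exact hcon
      rw [← hN] at hk1 hk2 hN1 hN1'
      have hL1 : 1 ≤ (N : ℝ) ^ (1 - ε / 16) := Real.one_le_rpow hN1' (by linarith)
      have hHX' : H ≤ X := by
        refine hHX.trans ?_
        calc X ^ (1 - ε) ≤ X ^ (1 : ℝ) := Real.rpow_le_rpow_of_exponent_le hX1 (by linarith)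
          _ = X := Real.rpow_one X
      have hNp : (N : ℝ) = 2 ^ k := by rw [hN]; push_cast; rfl
      have hg := good hSand χ hS hC1n (N := N) (g := ⌊(N : ℝ) ^ (1 - ε / 16)⌋₊) (J := Jk k)
        (L := (N : ℝ) ^ (1 - ε / 16)) (X := X) (H := H) hN1 (Nat.one_le_floor_iff _ |>.2 hL1) ?_
        (Nat.floor_le (by linarith)) ?_ hk1 hk2 hH hHX' ?_ hHq ?_
      · -- conclusion
        have h1 : X * |VV χ X H - 6 / Real.pi ^ 2 * H| ≤ X * (C * (H * X ^ (-(ε ^ 2 / 16)))) := by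
          calc X * |VV χ X H - 6 / Real.pi ^ 2 * H| = |X * VV χ X H - 6 / Real.pi ^ 2 * (H * X)| := by
                rw [← abs_of_pos hX0, ← abs_mul, abs_of_pos hX0]; congr 1; ring
            _ ≤ (6 + 6 * C1) * (H * (N : ℝ) ^ (1 - ε / 16)) := hg
            _ ≤ C * (H * (X * X ^ (-(ε ^ 2 / 16)))) := by
                have hCC : 6 + 6 * C1 ≤ C := by rw [hC]; exact le_max_right _ _
                have h2 : (N : ℝ) ^ (1 - ε / 16) ≤ X * X ^ (-(ε ^ 2 / 16)) := by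
                  calc (N : ℝ) ^ (1 - ε / 16) ≤ X ^ (1 - ε / 16) :=
                        Real.rpow_le_rpow (by positivity) hk1 (by linarith)
                    _ ≤ X ^ (1 + -(ε ^ 2 / 16)) := by
                        apply Real.rpow_le_rpow_of_exponent_le hX1
                        nlinarith
                    _ = X * X ^ (-(ε ^ 2 / 16)) := by rw [Real.rpow_add hX0, Real.rpow_one]
                have h66 : 0 ≤ 6 + 6 * C1 := by positivity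
                have hCn : 0 ≤ C := h66.trans hCC
                gcongr
            _ = X * (C * (H * X ^ (-(ε ^ 2 / 16)))) := by ring
        exact le_of_mul_le_mul_left h1 hX0
      · -- g ≤ N
        have h1 : (N : ℝ) ^ (1 - ε / 16) ≤ N := by
          calc (N : ℝ) ^ (1 - ε / 16) ≤ (N : ℝ) ^ (1 : ℝ) :=
                Real.rpow_le_rpow_of_exponent_le hN1' (by linarith)
            _ = N := Real.rpow_one _
        have h2 := (Nat.floor_le (by linarith : (0 : ℝ) ≤ (N : ℝ) ^ (1 - ε / 16))).trans h1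
        exact_mod_cast h2
      · rw [Real.sqrt_eq_rpow]
        exact Real.rpow_le_rpow_of_exponent_le hN1' (by linarith)
      · -- ⌊H⌋ ≤ J
        apply Nat.floor_le_floor
        apply le_min
        · refine hHX.trans ?_
          rw [hNp] at hk2
          exact Real.rpow_le_rpow hX0.le hk2 (by linarith)
        · rw [le_div_iff₀ (by positivity)]
          rw [hNp] at hk1
          nlinarith
      · intro a b hab hb
        by_contra hlt
        exact hcon' ⟨a, b, hab, hb, not_le.1 hlt⟩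
  -- the sum
  have hcardk : ∀ k ∈ (range q).filter (fun k => (q : ℝ) ^ ε ≤ 2 * 2 ^ k),
      (((univ : Finset (DirichletCharacter ℂ q)).filter (fun χ => χ ∈ BB k)).card : ℝ) ≤
        Cb * q * (2 * (q : ℝ) ^ (-(ε ^ 2 / 4))) * r ^ k := by
    intro k hk
    have hk2 := (Finset.mem_filter.1 hk).2
    have h1 := hCb q (2 ^ k) (Jk k) Nat.one_le_two_pow (hJ1 k) (hJ2 k)
    refine h1.trans ?_
    rw [mul_assoc (Cb * q)]
    gcongr
    push_cast
    have hp : (0 : ℝ) < 2 ^ k := by positivity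
    have e1 : ((2 : ℝ) ^ k) ^ (-(ε / 2)) = ((2 : ℝ) ^ k) ^ (-(ε / 4)) * ((2 : ℝ) ^ k) ^ (-(ε / 4)) := by
      rw [← Real.rpow_add hp]; congr 1; ring
    have e2 : ((2 : ℝ) ^ k) ^ (-(ε / 4)) = r ^ k := by
      rw [hr, ← Real.rpow_natCast, ← Real.rpow_mul (by norm_num), ← Real.rpow_natCast,
        ← Real.rpow_mul (by norm_num)]
      congr 1; ring
    rw [e1]
    nth_rewrite 2 [e2]
    gcongr
    -- (2^k)^(-ε/4) ≤ 2 q^(-ε²/4)
    have h2 : (q : ℝ) ^ ε / 2 ≤ 2 ^ k := by linarith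
    have h3 : (0 : ℝ) < (q : ℝ) ^ ε / 2 := by positivity
    calc ((2 : ℝ) ^ k) ^ (-(ε / 4)) ≤ ((q : ℝ) ^ ε / 2) ^ (-(ε / 4)) :=
          Real.rpow_le_rpow_of_nonpos h3 h2 (by linarith)
      _ = ((q : ℝ) ^ ε) ^ (-(ε / 4)) * 2 ^ (ε / 4) := by
          rw [Real.div_rpow (by positivity) (by norm_num), Real.rpow_neg (by norm_num : (0 : ℝ) ≤ 2),
            div_inv_eq_mul]
      _ ≤ (q : ℝ) ^ (-(ε ^ 2 / 4)) * 2 := by
          have h4 : ((q : ℝ) ^ ε) ^ (-(ε / 4)) = (q : ℝ) ^ (-(ε ^ 2 / 4)) := by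
            rw [← Real.rpow_mul hq0.le]; congr 1; ring
          have h5 : (2 : ℝ) ^ (ε / 4) ≤ 2 := by
            calc (2 : ℝ) ^ (ε / 4) ≤ 2 ^ (1 : ℝ) := Real.rpow_le_rpow_of_exponent_le (by norm_num) (by linarith)
              _ = 2 := Real.rpow_one _
          rw [h4]
          gcongr
      _ = 2 * (q : ℝ) ^ (-(ε ^ 2 / 4)) := by ring
  calc (((univ : Finset (DirichletCharacter ℂ q)).filter (fun χ => χ ∈ Dev q ε (ε ^ 2 / 16) C)).card : ℝ)
      ≤ ((((range q).filter (fun k => (q : ℝ) ^ ε ≤ 2 * 2 ^ k)).biUnion (fun k =>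
        (univ : Finset (DirichletCharacter ℂ q)).filter (fun χ => χ ∈ BB k))).card : ℝ) := by
        exact_mod_cast Finset.card_le_card hsub
    _ ≤ ((∑ k ∈ (range q).filter (fun k => (q : ℝ) ^ ε ≤ 2 * 2 ^ k),
        ((univ : Finset (DirichletCharacter ℂ q)).filter (fun χ => χ ∈ BB k)).card : ℕ) : ℝ) := by
        exact_mod_cast Finset.card_biUnion_le
    _ ≤ ∑ k ∈ (range q).filter (fun k => (q : ℝ) ^ ε ≤ 2 * 2 ^ k),
        Cb * q * (2 * (q : ℝ) ^ (-(ε ^ 2 / 4))) * r ^ k := by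
        push_cast
        exact Finset.sum_le_sum hcardk
    _ = Cb * q * (2 * (q : ℝ) ^ (-(ε ^ 2 / 4))) *
        ∑ k ∈ (range q).filter (fun k => (q : ℝ) ^ ε ≤ 2 * 2 ^ k), r ^ k := by rw [Finset.mul_sum]
    _ ≤ Cb * q * (2 * (q : ℝ) ^ (-(ε ^ 2 / 4))) * (1 - r)⁻¹ := by
        gcongr
        rw [← tsum_geometric_of_lt_one hr0 hr1]
        exact (summable_geometric_of_lt_one hr0 hr1).sum_le_tsum _ fun k _ => by positivity
    _ = (Cb * (2 * (1 - r)⁻¹)) * (q : ℝ) ^ (1 - ε ^ 2 / 4) := by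
        have e : (q : ℝ) ^ (1 - ε ^ 2 / 4) = q * (q : ℝ) ^ (-(ε ^ 2 / 4)) := by
          rw [sub_eq_add_neg, Real.rpow_add hq0, Real.rpow_one]
        rw [e]; ring
    _ ≤ C * (q : ℝ) ^ (1 - ε ^ 2 / 16) := by
        have h1 : Cb * (2 * (1 - r)⁻¹) ≤ C := by rw [hC]; exact le_max_left _ _
        have h2 : (q : ℝ) ^ (1 - ε ^ 2 / 4) ≤ (q : ℝ) ^ (1 - ε ^ 2 / 16) :=
          Real.rpow_le_rpow_of_exponent_le hq1 (by nlinarith)
        have h3 : 0 ≤ C := le_trans (by positivity : (0 : ℝ) ≤ 6 + 6 * C1) (by rw [hC]; exact le_max_right _ _)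
        gcongr

end Pool.Agent.K1H54.GC
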