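import Mathlib

/-!
Project GC (MP_0575cc_nt): the variance of `μ χ` in short intervals for almost all characters `χ` modulo a prime `q`.
Definitions and statements of the pieces (Mathlib only).
-/

set_option autoImplicit false

namespace Pool.Agent.K1H54.GC

open Finset

/-- the function `μ χ` -/
noncomputable def aa {q : ℕ} (χ : DirichletCharacter ℂ q) (n : ℕ) : ℂ :=
  ((ArithmeticFunction.moebius n : ℤ) : ℂ) * χ (n : ZMod q)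

/-- the sum of `μ χ` over the integers in `(u, u + j]` -/
noncomputable def DD {q : ℕ} (χ : DirichletCharacter ℂ q) (u j : ℕ) : ℂ :=
  ∑ n ∈ Ioc u (u + j), aa χ n

/-- the sum of the squares of the sums over the windows `(u, u + j]`, `U1 ≤ u < U2` -/
noncomputable def II {q : ℕ} (χ : DirichletCharacter ℂ q) (U1 U2 j : ℕ) : ℝ :=
  ∑ u ∈ Ico U1 U2, ‖DD χ u j‖ ^ 2

/-- the correlations -/
noncomputable def ZZ {q : ℕ} (χ : DirichletCharacter ℂ q) (U1 U2 j : ℕ) : ℂ :=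
  ∑ u ∈ Ico U1 U2, (starRingEnd ℂ) (aa χ (u + j + 1)) * DD χ u j

/-- the sum of `μ χ` over the integers `n` with `|n - x| < H / 2` -/
noncomputable def MM {q : ℕ} (χ : DirichletCharacter ℂ q) (x H : ℝ) : ℂ :=
  ∑ n ∈ (range (⌈x + H⌉₊ + 1)).filter (fun n : ℕ => |(n : ℝ) - x| < H / 2), aa χ n

/-- the variance -/
noncomputable def VV {q : ℕ} (χ : DirichletCharacter ℂ q) (X H : ℝ) : ℝ :=
  (1 / X) * ∫ x in X..2 * X, ‖MM χ x H‖ ^ 2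

/-- solutions of `m h' = m' h` with `A < m, m' ≤ B`, `1 ≤ h, h' ≤ j`; elements `((m, h), (m', h'))` -/
def sols (A B j : ℕ) : Finset ((ℕ × ℕ) × (ℕ × ℕ)) :=
  ((Ioc A B ×ˢ Icc 1 j) ×ˢ (Ioc A B ×ˢ Icc 1 j)).filter (fun p => p.1.1 * p.2.2 = p.2.1 * p.1.2)

/-- Piece CNT: the number of solutions. -/
def S_CNT : Prop := ∀ A B j : ℕ, A ≤ B → 1 ≤ j →
  ((sols A B j).card : ℝ) ≤ ((B : ℝ) - A) * j * (1 + Real.log j) ^ 2 + (j : ℝ) ^ 2

/-- Piece SQF: squarefree integers in an interval. -/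
def S_SQF : Prop := ∃ C : ℝ, ∀ A B : ℕ, A ≤ B →
  |(((Ioc A B).filter (fun n => Squarefree n)).card : ℝ) - 6 / Real.pi ^ 2 * ((B : ℝ) - A)| ≤ C * √(B : ℝ)

/-- Piece MOM: the second moment of the correlations. -/
def S_MOM : Prop := ∀ (q : ℕ) [Fact q.Prime] (U1 U2 j : ℕ), (U2 + j) * j < q →
  ∑ χ : DirichletCharacter ℂ q, ‖ZZ χ U1 U2 j‖ ^ 2 ≤ (q : ℝ) * ((sols (U1 + j) (U2 + j) j).card : ℝ)

/-- Piece INT: the integral over one unit interval of the left endpoint of the window. -/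
def S_INT : Prop := ∀ (q : ℕ) (χ : DirichletCharacter ℂ q) (H : ℝ) (k : ℕ), 1 ≤ H →
  IntervalIntegrable (fun x => ‖MM χ x H‖ ^ 2) MeasureTheory.volume (k + H / 2) (k + 1 + H / 2) ∧
  ∫ x in (k + H / 2 : ℝ)..(k + 1 + H / 2), ‖MM χ x H‖ ^ 2 =
    (1 - Int.fract H) * ‖DD χ k ⌊H⌋₊‖ ^ 2 + Int.fract H * ‖DD χ k (⌊H⌋₊ + 1)‖ ^ 2

/-- Piece SAND: comparison of the integral with the sums over windows. -/
def S_SAND : Prop := ∀ (q : ℕ) (χ : DirichletCharacter ℂ q) (X H : ℝ) (U1 U2 : ℕ), 1 ≤ H → 0 < X → U1 ≤ U2 →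
  ((U1 : ℝ) + H / 2 ≤ X → 2 * X ≤ (U2 : ℝ) + H / 2 →
    ∫ x in X..2 * X, ‖MM χ x H‖ ^ 2 ≤
      (1 - Int.fract H) * II χ U1 U2 ⌊H⌋₊ + Int.fract H * II χ U1 U2 (⌊H⌋₊ + 1)) ∧
  (X ≤ (U1 : ℝ) + H / 2 → (U2 : ℝ) + H / 2 ≤ 2 * X →
    (1 - Int.fract H) * II χ U1 U2 ⌊H⌋₊ + Int.fract H * II χ U1 U2 (⌊H⌋₊ + 1) ≤
      ∫ x in X..2 * X, ‖MM χ x H‖ ^ 2)

/-- Piece DET: the recursion in the length of the window. If the weighted sum of the squares of the correlations is at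
most `L ^ 2` then the sums over windows are close to the diagonal terms, for all lengths. -/
def S_DET : Prop := ∀ (q : ℕ) (χ : DirichletCharacter ℂ q) (U1 U2 J : ℕ) (L : ℝ), 0 ≤ L →
  ∑ j ∈ Icc 1 J, ‖ZZ χ U1 U2 j‖ ^ 2 / j ≤ L ^ 2 →
  ∀ j ≤ J + 1, |II χ U1 U2 j - ∑ i ∈ range j, ∑ u ∈ Ico U1 U2, ‖aa χ (u + i + 1)‖ ^ 2| ≤ 2 * (j * L)

end Pool.Agent.K1H54.GC
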