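import Pool.Agent.K1H54.GC.Stm

/-!
Project GC, second part: statements of the pieces for the longer range (products larger than the modulus).
-/

set_option autoImplicit false

namespace Pool.Agent.K1H54.GC

open Finset

/-- solutions of `m h' ≡ m' h` modulo `q` with `A < m, m' ≤ B`, `1 ≤ h, h' ≤ j`; elements `((m, h), (m', h'))` -/
def solq (q A B j : ℕ) : Finset ((ℕ × ℕ) × (ℕ × ℕ)) :=
  ((Ioc A B ×ˢ Icc 1 j) ×ˢ (Ioc A B ×ˢ Icc 1 j)).filter (fun p => p.1.1 * p.2.2 ≡ p.2.1 * p.1.2 [MOD q])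

/-- Piece CNT2: the number of solutions of the congruence. -/
def S_CNT2 : Prop := ∀ η : ℝ, 0 < η → ∃ C : ℝ, 0 ≤ C ∧ ∀ q A B j : ℕ, 1 ≤ q → 1 ≤ j → 1 ≤ B →
  ((solq q A B j).card : ℝ) ≤ C * ((B : ℝ) * j) ^ (1 + η) * ((B : ℝ) * j / q + 1)

/-- Piece MOM2: the second moment of the correlations. -/
def S_MOM2 : Prop := ∀ (q : ℕ) [Fact q.Prime] (U1 U2 j : ℕ),
  ∑ χ : DirichletCharacter ℂ q, ‖ZZ χ U1 U2 j‖ ^ 2 ≤ (q : ℝ) * ((solq q (U1 + j) (U2 + j) j).card : ℝ)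

/-- Piece SQF2: squarefree integers not divisible by `q` in an interval. -/
def S_SQF2 : Prop := ∃ C : ℝ, 0 ≤ C ∧ ∀ q A B : ℕ, 1 ≤ q → A ≤ B →
  |(((Ioc A B).filter (fun n => Squarefree n ∧ ¬ q ∣ n)).card : ℝ) - 6 / Real.pi ^ 2 * ((B : ℝ) - A)| ≤
    C * √(B : ℝ) + ((B : ℝ) / q + 1)

end Pool.Agent.K1H54.GC
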