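import Pool.Agent.K1H54.GC.Stm

/-!
Project GC, third part (quadratic twists): statements of the pieces.
-/

set_option autoImplicit false

namespace Pool.Agent.K1H54.GC

open Finset

/-- the Legendre symbol modulo `p` as a Dirichlet character -/
noncomputable def qc (p : ℕ) [Fact p.Prime] : DirichletCharacter ℂ p :=
  (quadraticChar (ZMod p)).ringHomComp (Int.castRingHom ℂ)

/-- the correlations of `μ(n) (n | p)` -/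
noncomputable def zq (p U1 U2 j : ℕ) : ℝ :=
  ∑ t ∈ Ioc (U1 + j) (U2 + j) ×ˢ Icc 1 j,
    ((ArithmeticFunction.moebius t.1 : ℤ) : ℝ) * ((ArithmeticFunction.moebius (t.1 - t.2) : ℤ) : ℝ) *
      (jacobiSym ((t.1 : ℤ) * ((t.1 - t.2 : ℕ) : ℤ)) p : ℝ)

/-- the number of pairs `(m, h)`, `m ≤ B`, `1 ≤ h ≤ j`, `h < m`, with `m (m - h) = k g ^ 2`, `g = gcd (m, m - h)` -/
def rr (B j k : ℕ) : ℕ :=
  ((Icc 1 B ×ˢ Icc 1 j).filter fun t => t.2 < t.1 ∧ t.1 * (t.1 - t.2) = k * (Nat.gcd t.1 (t.1 - t.2)) ^ 2).card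

/-- Piece ZQ: the correlations of the Legendre symbol. -/
def S_ZQ : Prop := ∀ (p : ℕ) [Fact p.Prime] (U1 U2 j : ℕ),
  ZZ (qc p) U1 U2 j = ((zq p U1 U2 j : ℝ) : ℂ)

/-- Piece DUAL: Heath-Brown's large sieve, dual form, outer variable a prime. -/
def S_DUAL : Prop := ∀ ε : ℝ, 0 < ε → ∃ C : ℝ, 0 ≤ C ∧ ∀ Q M : ℕ, 1 ≤ Q → 1 ≤ M → ∀ b : ℕ → ℝ,
  ∑ p ∈ (Icc 1 Q).filter (fun p => p.Prime ∧ p ≠ 2),
    (∑ k ∈ (Icc 1 M).filter (fun k => Squarefree k), b k * (jacobiSym (k : ℤ) p : ℝ)) ^ 2 ≤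
      C * ((Q : ℝ) * M) ^ ε * (Q + M) * ∑ k ∈ (Icc 1 M).filter (fun k => Squarefree k), (b k) ^ 2

/-- Piece SQC: the pairs `(m, h)`, `(m', h')` with the same kernel. -/
def S_SQC : Prop := ∀ η : ℝ, 0 < η → ∃ C : ℝ, 0 ≤ C ∧ ∀ B j : ℕ, 1 ≤ j → j ≤ B →
  ∑ k ∈ Icc 1 (B ^ 2), ((rr B j k : ℕ) : ℝ) ^ 2 ≤ C * ((B : ℝ) * j) ^ (1 + η)

/-- Piece MOM3: the second moment over the primes. -/
def S_MOM3 : Prop := ∀ η : ℝ, 0 < η → ∃ C : ℝ, 0 ≤ C ∧ ∀ Q U1 U2 j : ℕ, 1 ≤ Q → 1 ≤ j →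
  ∑ p ∈ (Icc 1 Q).filter (fun p => p.Prime ∧ p ≠ 2 ∧ j < p), (zq p U1 U2 j) ^ 2 ≤
    C * ((Q : ℝ) * ((U2 + j : ℕ) : ℝ) ^ 2) ^ η * ((Q : ℝ) + ((U2 + j : ℕ) : ℝ) ^ 2) *
      (((U2 + j : ℕ) : ℝ) * j) ^ (1 + η)

end Pool.Agent.K1H54.GC
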